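import Mathlib

/-! Bounded delay schedules for regular three-dimensional train networks. -/

open Set

namespace Pool.Agent.Results.MP_03ede5_co.Bounded

/-- an axis-parallel track with distinct integer endpoints -/
structure Line where
  dep : Fin 3 → ℤ
  arr : Fin 3 → ℤ
  ne : dep ≠ arr
  par : ∃ a, ∀ b, b ≠ a → dep b = arr b

/-- an integer point as a point of Euclidean space -/
noncomputable def pt (p : Fin 3 → ℤ) : EuclideanSpace ℝ (Fin 3) := WithLp.toLp 2 fun i => (p i : ℝ)

/-- the track of a line -/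
def track (A : Line) : Set (EuclideanSpace ℝ (Fin 3)) := segment ℝ (pt A.dep) (pt A.arr)

lemma data (A : Line) : ∃ (a : Fin 3) (σ L : ℤ), (σ = 1 ∨ σ = -1) ∧ 1 ≤ L ∧
    (∀ x ∈ track A, ∃ s : ℝ, 0 ≤ s ∧ s ≤ L ∧ dist (pt A.dep) x = s ∧
      x a = A.dep a + σ * s ∧ ∀ b, b ≠ a → x b = A.dep b) ∧
    ∀ (x : EuclideanSpace ℝ (Fin 3)) (s : ℝ), 0 ≤ s → s ≤ L → x a = A.dep a + σ * s →
      (∀ b, b ≠ a → x b = A.dep b) → x ∈ track A := by
  obtain ⟨a, ha⟩ := A.par
  have hne : A.dep a ≠ A.arr a := fun h => A.ne (funext fun b => by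
    by_cases hb : b = a
    · rw [hb, h]
    · exact ha b hb)
  obtain ⟨σ, L, hσ, hL, e⟩ : ∃ σ L : ℤ, (σ = 1 ∨ σ = -1) ∧ 1 ≤ L ∧ A.arr a = A.dep a + σ * L := by
    rcases lt_or_gt_of_ne hne with h | h
    · exact ⟨1, A.arr a - A.dep a, Or.inl rfl, by omega, by ring⟩
    · exact ⟨-1, A.dep a - A.arr a, Or.inr rfl, by omega, by ring⟩
  have hL' : (1 : ℝ) ≤ L := by exact_mod_cast hL
  have e' : (A.arr a : ℝ) = A.dep a + σ * L := by exact_mod_cast e
  refine ⟨a, σ, L, hσ, hL, ?_, fun x s h0 h1 h2 h3 => ?_⟩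
  · rintro x ⟨u, v, hu, hv, huv, rfl⟩
    have h1 : (u • pt A.dep + v • pt A.arr) a = A.dep a + σ * (v * L) := by
      simp only [pt, PiLp.add_apply, PiLp.smul_apply, smul_eq_mul, e']
      linear_combination (A.dep a : ℝ) * huv
    have h2 : ∀ b, b ≠ a → (u • pt A.dep + v • pt A.arr) b = A.dep b := fun b hb => by
      simp only [pt, PiLp.add_apply, PiLp.smul_apply, smul_eq_mul, ← ha b hb]
      linear_combination (A.dep b : ℝ) * huv
    refine ⟨v * L, by positivity, by nlinarith, ?_, h1, h2⟩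
    rw [EuclideanSpace.dist_eq, Finset.sum_eq_single a, Real.sqrt_sq dist_nonneg, h1]
    · rcases hσ with rfl | rfl <;> simp [pt, abs_of_nonneg hv, abs_of_nonneg (by linarith : (0 : ℝ) ≤ L)]
    · intro b _ hb
      rw [h2 b hb]; simp [pt]
    · simp
  · refine ⟨1 - s / L, s / L, by rw [sub_nonneg, div_le_one (by linarith)]; exact h1,
      by positivity, by ring, ?_⟩
    ext b
    simp only [pt, PiLp.add_apply, PiLp.smul_apply, smul_eq_mul]
    by_cases hb : b = a
    · rw [hb, h2, e']; field_simp; ring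
    · rw [h3 b hb, ← ha b hb]; ring

lemma exists_count (D : Set ℤ) : ∃ g : ℤ → ℤ, ∀ p q, p < q → p ∈ D →
    (∀ y ∈ D, p < y → q ≤ y) → g q = g p + 1 := by
  classical
  let χ : ℤ → ℤ := fun y => if y ∈ D then 1 else 0
  let g : ℤ → ℤ := fun z => ∑ y ∈ Finset.Ico 0 z, χ y - ∑ y ∈ Finset.Ico z 0, χ y
  have hg : ∀ z, g (z + 1) = g z + χ z := by
    intro z
    simp only [g]
    rcases le_or_gt 0 z with h | h
    · rw [← Finset.insert_Ico_right_eq_Ico_add_one h, Finset.sum_insert (by simp),
        Finset.Ico_eq_empty (show ¬ z + 1 < 0 by omega), Finset.Ico_eq_empty (show ¬ z < 0 by omega)]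
      ring
    · rw [← Finset.insert_Ico_add_one_left_eq_Ico h, Finset.sum_insert (by simp),
        Finset.Ico_eq_empty (show ¬ 0 < z + 1 by omega), Finset.Ico_eq_empty (show ¬ 0 < z by omega)]
      ring
  refine ⟨g, fun p q hpq hp h => ?_⟩
  have key : ∀ n : ℕ, p + 1 + n ≤ q → g (p + 1 + n) = g p + 1 := by
    intro n
    induction n with
    | zero => intro _; simp [hg, χ, hp]
    | succ n ih =>
      intro hn
      push_cast at hn ⊢
      rw [← add_assoc, hg, ih (by omega)]
      simp only [χ]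
      rw [if_neg fun hy => by have := h _ hy (by omega); omega, add_zero]
  obtain ⟨n, hn⟩ := Int.eq_ofNat_of_zero_le (show 0 ≤ q - (p + 1) by omega)
  rw [show q = p + 1 + n by omega]
  exact key n (by omega)

lemma crt (κ : Type) [Fintype κ] (b : ℕ) : ∃ (m : κ → ℤ) (C : ℕ), (∀ i, (b : ℤ) ≤ m i) ∧
    ∀ r : κ → ℤ, ∃ t : ℕ, t ≤ C ∧ ∀ i, m i ∣ t - r i := by
  let e := Fintype.equivFin κ
  let s : κ → ℕ := fun i => Nat.nth Nat.Prime (b + e i)
  have hp : ∀ i, (s i).Prime := fun i => Nat.prime_nth_prime _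
  refine ⟨fun i => s i, ∏ i, s i, fun i => ?_, fun r => ?_⟩
  · exact Nat.cast_le.mpr ((Nat.le_add_right b (e i)).trans
      (Nat.nth_strictMono Nat.infinite_setOfPred_prime).le_apply)
  · have hs : ∀ i ∈ (Finset.univ : Finset κ), s i ≠ 0 := fun i _ => (hp i).ne_zero
    have pp : Set.Pairwise (Finset.univ : Finset κ) (Function.onFun Nat.Coprime s) :=
      fun i _ j _ hij => (Nat.coprime_primes (hp i) (hp j)).mpr fun h => hij (e.injective (Fin.ext
        (Nat.add_left_cancel (Nat.nth_injective Nat.infinite_setOfPred_prime h))))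
    refine ⟨_, (Nat.chineseRemainderOfFinset_lt_prod (fun i => (r i % s i).toNat) s hs pp).le,
      fun i => ?_⟩
    have h1 := (Nat.chineseRemainderOfFinset (fun i => (r i % s i).toNat) s _ hs pp).2 i
      (Finset.mem_univ i)
    have h2 := (Int.natCast_modEq_iff.mpr h1)
    rw [Int.toNat_of_nonneg (Int.emod_nonneg _ (by exact_mod_cast (hp i).ne_zero))] at h2
    exact (h2.trans (Int.mod_modEq _ _)).symm.dvd

lemma sep {l : ℕ} {m T T' : ℤ} (hm : (2 * l : ℕ) ≤ m) (h : m ∣ T - T' - l ∨ m ∣ T - T' + l)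
    {u v : ℝ} (hu : u = T) (hv : v = T') : Disjoint (Ioo u (u + l)) (Ioo v (v + l)) := by
  have h1 : T + l ≤ T' ∨ T' + l ≤ T := by
    by_contra hc
    push Not at hc
    push_cast at hm
    rcases h with h | h
    · have := Int.le_of_dvd (show 0 < -(T - T' - l) by omega) (dvd_neg.mpr h)
      omega
    · have := Int.le_of_dvd (show 0 < T - T' + l by omega) h
      omega
  rw [hu, hv, disjoint_left]
  rintro x ⟨a1, a2⟩ ⟨b1, b2⟩
  rcases h1 with h1 | h1
  · have : (T : ℝ) + l ≤ T' := by exact_mod_cast h1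
    linarith
  · have : (T' : ℝ) + l ≤ T := by exact_mod_cast h1
    linarith

theorem result (l : ℕ) : ∃ C : ℝ, ∀ N : Set Line,
    (∀ A ∈ N, ∀ B ∈ N, A ≠ B → (track A ∩ track B).Subsingleton) →
    ∃ t : Line → ℝ, (∀ A ∈ N, 0 ≤ t A ∧ t A ≤ C) ∧
      ∀ A ∈ N, ∀ B ∈ N, A ≠ B → ∀ x ∈ track A ∩ track B,
        Disjoint (Ioo (t A + dist (pt A.dep) x) (t A + dist (pt A.dep) x + l))
          (Ioo (t B + dist (pt B.dep) x) (t B + dist (pt B.dep) x + l)) := by
  classical
  obtain ⟨m, C, hm, hC⟩ := crt (((Fin 3 × Bool) × (Fin 3 × Bool)) ⊕ Fin 3) (2 * l)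
  refine ⟨C, fun N hN => ?_⟩
  choose ax σ L hσ hL h1 h2 using data
  choose G hG using exists_count
  let D : Line → Set ℤ := fun A => {y | ∃ B ∈ N, ax B = ax A ∧ σ B = σ A ∧
    (∀ b, b ≠ ax A → B.dep b = A.dep b) ∧ y = σ B * B.dep (ax B)}
  let ty : Line → Fin 3 × Bool := fun A => (ax A, decide (σ A = 1))
  let sg : Bool → ℤ := fun b => if b then 1 else -1
  have hsg : ∀ A, sg (ty A).2 = σ A := fun A => by
    rcases hσ A with h | h <;> simp [sg, ty, h]
  let r : Line → ((Fin 3 × Bool) × (Fin 3 × Bool)) ⊕ Fin 3 → ℤ := fun A i => match i with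
    | .inl (τ, τ') => σ A * A.dep (ax A) +
        if ty A = τ then sg τ'.2 * A.dep τ'.1 else sg τ.2 * A.dep τ.1 + l
    | .inr 0 => if σ A = 1 then 0 else l
    | .inr 1 => (if σ A = 1 then 0 else l) - L A
    | .inr 2 => σ A * A.dep (ax A) + l * (G (D A) (σ A * A.dep (ax A)) % 2)
  choose t ht hr using fun A => hC (r A)
  -- collinear tracks do not overlap
  have hov : ∀ A ∈ N, ∀ B ∈ N, A ≠ B → ax B = ax A → (∀ b, b ≠ ax A → B.dep b = A.dep b) →
      ∀ y : ℤ, 0 ≤ σ A * (y - A.dep (ax A)) → σ A * (y - A.dep (ax A)) ≤ L A →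
        0 ≤ σ A * (y + 1 - A.dep (ax A)) → σ A * (y + 1 - A.dep (ax A)) ≤ L A →
        0 ≤ σ B * (y - B.dep (ax A)) → σ B * (y - B.dep (ax A)) ≤ L B →
        0 ≤ σ B * (y + 1 - B.dep (ax A)) → σ B * (y + 1 - B.dep (ax A)) ≤ L B → False := by
    intro A hA B hB hAB hax htr y a1 a2 a3 a4 b1 b2 b3 b4
    have key : ∀ (E : Line) (z : ℤ), ax E = ax A → (∀ b, b ≠ ax A → E.dep b = A.dep b) →
        0 ≤ σ E * (z - E.dep (ax A)) → σ E * (z - E.dep (ax A)) ≤ L E →
        pt (Function.update A.dep (ax A) z) ∈ track E := by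
      intro E z e1 e2 c1 c2
      refine h2 E _ ((σ E * (z - E.dep (ax A)) : ℤ) : ℝ) (by exact_mod_cast c1)
        (by exact_mod_cast c2) ?_ fun b hb => ?_
      · rw [e1]
        rcases hσ E with h | h <;> simp [pt, h]
      · rw [e1] at hb
        simp [pt, Function.update_of_ne hb, e2 b hb]
    have := hN A hA B hB hAB ⟨key A y rfl (fun _ _ => rfl) a1 a2, key B y hax htr b1 b2⟩
      ⟨key A (y + 1) rfl (fun _ _ => rfl) a3 a4, key B (y + 1) hax htr b3 b4⟩
    have h3 := congrArg (fun w : EuclideanSpace ℝ (Fin 3) => w (ax A)) this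
    simp [pt] at h3
  -- arrival of one line at the departure point of the next one
  have hsucc : ∀ A ∈ N, ∀ B ∈ N, ax B = ax A → σ B = σ A → (∀ b, b ≠ ax A → B.dep b = A.dep b) →
      B.dep (ax A) = A.dep (ax A) + σ A * L A →
      m (.inr 2) ∣ (t A + L A) - t B - l ∨ m (.inr 2) ∣ (t A + L A) - t B + l := by
    intro A hA B hB hax hs htr e
    have hD : D B = D A := by
      ext y
      simp only [D, mem_ofPred_eq, hax, hs]
      exact exists_congr fun E => and_congr_right fun _ => and_congr_right fun _ =>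
        and_congr_right fun _ => and_congr_left fun _ =>
          forall₂_congr fun b hb => by rw [htr b hb]
    have hl := hL A
    have e2 : σ A * B.dep (ax A) = σ A * A.dep (ax A) + L A := by
      rcases hσ A with h | h <;> rw [e, h] <;> ring
    have hg := hG (D A) (σ A * A.dep (ax A)) (σ A * B.dep (ax A)) (by omega)
      ⟨A, hA, rfl, rfl, fun _ _ => rfl, rfl⟩ (by
        rintro _ ⟨E, hE, e3, e4, e5, rfl⟩ hlt
        rw [e3, e4] at hlt ⊢
        by_contra hc
        have hlE := hL E
        have hEA : A ≠ E := by rintro rfl; exact lt_irrefl _ hlt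
        rcases hσ A with h | h
        · apply hov A hA E hE hEA e3 e5 (E.dep (ax A)) <;> simp only [e4, h] at * <;> omega
        · apply hov A hA E hE hEA e3 e5 (E.dep (ax A) - 1) <;> simp only [e4, h] at * <;> omega)
    have a1 := hr A (.inr 2)
    have a2 := hr B (.inr 2)
    simp only [r, hD, hax, hs, hg] at a1 a2
    have a3 := dvd_sub a1 a2
    rcases Int.emod_two_eq_zero_or_one (G (D A) (σ A * A.dep (ax A))) with h | h
    · right
      rw [h, show (G (D A) (σ A * A.dep (ax A)) + 1) % 2 = 1 by omega, e2] at a3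
      exact a3.trans (dvd_of_eq (by ring))
    · left
      rw [h, show (G (D A) (σ A * A.dep (ax A)) + 1) % 2 = 0 by omega, e2] at a3
      exact a3.trans (dvd_of_eq (by ring))
  refine ⟨fun A => t A, fun A _ => ⟨Nat.cast_nonneg _, Nat.cast_le.mpr (ht A)⟩,
    fun A hA B hB hAB x hx => ?_⟩
  obtain ⟨s, s0, s1, es, ea, eb⟩ := h1 A x hx.1
  obtain ⟨s', s0', s1', es', ea', eb'⟩ := h1 B x hx.2
  rw [es, es']
  by_cases hax : ax B = ax A
  · have htr : ∀ b, b ≠ ax A → B.dep b = A.dep b := fun b hb => by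
      exact Int.cast_injective (α := ℝ) ((eb' b (hax ▸ hb)).symm.trans (eb b hb))
    have htr' : ∀ b, b ≠ ax B → A.dep b = B.dep b := fun b hb => (htr b (hax ▸ hb)).symm
    rw [hax, ea] at ea'
    have hlA := hL A
    have hlB := hL B
    have hno := hov A hA B hB hAB hax htr
    rcases hσ A with hs | hs <;> rcases hσ B with hs' | hs' <;> rw [hs, hs'] at ea' hno <;>
      push_cast at ea'
    · have c : A.dep (ax A) + L A ≤ B.dep (ax A) ∨ B.dep (ax A) + L B ≤ A.dep (ax A) := by
        by_contra hc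
        apply hno (max (A.dep (ax A)) (B.dep (ax A))) <;> omega
      rcases c with c | c
      · have c' : (A.dep (ax A) : ℝ) + L A ≤ B.dep (ax A) := by exact_mod_cast c
        have c2 : (B.dep (ax A) : ℝ) = A.dep (ax A) + L A := by linarith
        refine sep (hm _) (hsucc A hA B hB hax (hs'.trans hs.symm) htr ?_) ?_ ?_
        · rw [hs, one_mul]; exact_mod_cast c2
        · push_cast; linarith
        · push_cast; linarith
      · have c' : (B.dep (ax A) : ℝ) + L B ≤ A.dep (ax A) := by exact_mod_cast c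
        have c2 : (A.dep (ax A) : ℝ) = B.dep (ax A) + L B := by linarith
        refine (sep (hm _) (hsucc B hB A hA hax.symm (hs.trans hs'.symm) htr' ?_) ?_ ?_).symm
        · rw [hs', one_mul, hax]; exact_mod_cast c2
        · push_cast; linarith
        · push_cast; linarith
    · have c : A.dep (ax A) + L A ≤ B.dep (ax A) - L B ∨ B.dep (ax A) ≤ A.dep (ax A) := by
        by_contra hc
        apply hno (max (A.dep (ax A)) (B.dep (ax A) - L B)) <;> omega
      rcases c with c | c
      · have c' : (A.dep (ax A) : ℝ) + L A ≤ B.dep (ax A) - L B := by exact_mod_cast c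
        have a1 := hr A (.inr 1)
        have a2 := hr B (.inr 1)
        simp only [r, hs, hs', if_true, show ¬ ((-1 : ℤ) = 1) by decide, if_false] at a1 a2
        refine sep (T := t A + L A) (T' := t B + L B) (hm (.inr 1)) (Or.inr ?_) ?_ ?_
        · exact (dvd_sub a1 a2).trans (dvd_of_eq (by ring))
        · push_cast; linarith
        · push_cast; linarith
      · have c' : (B.dep (ax A) : ℝ) ≤ A.dep (ax A) := by exact_mod_cast c
        have a1 := hr A (.inr 0)
        have a2 := hr B (.inr 0)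
        simp only [r, hs, hs', if_true, show ¬ ((-1 : ℤ) = 1) by decide, if_false] at a1 a2
        refine sep (T := t A) (T' := t B) (hm (.inr 0)) (Or.inr ?_) ?_ ?_
        · exact (dvd_sub a1 a2).trans (dvd_of_eq (by ring))
        · push_cast; linarith
        · push_cast; linarith
    · have c : B.dep (ax A) + L B ≤ A.dep (ax A) - L A ∨ A.dep (ax A) ≤ B.dep (ax A) := by
        by_contra hc
        apply hno (max (B.dep (ax A)) (A.dep (ax A) - L A)) <;> omega
      rcases c with c | c
      · have c' : (B.dep (ax A) : ℝ) + L B ≤ A.dep (ax A) - L A := by exact_mod_cast c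
        have a1 := hr A (.inr 1)
        have a2 := hr B (.inr 1)
        simp only [r, hs, hs', if_true, show ¬ ((-1 : ℤ) = 1) by decide, if_false] at a1 a2
        refine sep (T := t A + L A) (T' := t B + L B) (hm (.inr 1)) (Or.inl ?_) ?_ ?_
        · exact (dvd_sub a1 a2).trans (dvd_of_eq (by ring))
        · push_cast; linarith
        · push_cast; linarith
      · have c' : (A.dep (ax A) : ℝ) ≤ B.dep (ax A) := by exact_mod_cast c
        have a1 := hr A (.inr 0)
        have a2 := hr B (.inr 0)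
        simp only [r, hs, hs', if_true, show ¬ ((-1 : ℤ) = 1) by decide, if_false] at a1 a2
        refine sep (T := t A) (T' := t B) (hm (.inr 0)) (Or.inl ?_) ?_ ?_
        · exact (dvd_sub a1 a2).trans (dvd_of_eq (by ring))
        · push_cast; linarith
        · push_cast; linarith
    · have c : A.dep (ax A) ≤ B.dep (ax A) - L B ∨ B.dep (ax A) ≤ A.dep (ax A) - L A := by
        by_contra hc
        apply hno (max (A.dep (ax A) - L A) (B.dep (ax A) - L B)) <;> omega
      rcases c with c | c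
      · have c' : (A.dep (ax A) : ℝ) ≤ B.dep (ax A) - L B := by exact_mod_cast c
        have c2 : (A.dep (ax A) : ℝ) = B.dep (ax A) + -1 * L B := by linarith
        refine (sep (hm _) (hsucc B hB A hA hax.symm (hs.trans hs'.symm) htr' ?_) ?_ ?_).symm
        · rw [hs', hax]; exact_mod_cast c2
        · push_cast; linarith
        · push_cast; linarith
      · have c' : (B.dep (ax A) : ℝ) ≤ A.dep (ax A) - L A := by exact_mod_cast c
        have c2 : (B.dep (ax A) : ℝ) = A.dep (ax A) + -1 * L A := by linarith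
        refine sep (hm _) (hsucc A hA B hB hax (hs'.trans hs.symm) htr ?_) ?_ ?_
        · rw [hs]; exact_mod_cast c2
        · push_cast; linarith
        · push_cast; linarith
  · have hty : ty B ≠ ty A := fun h => hax (congrArg Prod.fst h)
    have a1 := hr A (.inl (ty A, ty B))
    have a2 := hr B (.inl (ty A, ty B))
    simp only [r, if_true, if_neg hty, hsg] at a1 a2
    rw [eb' _ (Ne.symm hax)] at ea
    rw [eb _ hax] at ea'
    refine sep (T := t A + σ A * (B.dep (ax A) - A.dep (ax A)))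
      (T' := t B + σ B * (A.dep (ax B) - B.dep (ax B))) (hm (.inl (ty A, ty B))) (Or.inr ?_) ?_ ?_
    · exact (dvd_sub a1 a2).trans (dvd_of_eq (by ring))
    · rcases hσ A with h | h <;> rw [h] at ea ⊢ <;> push_cast at ea ⊢ <;> linarith
    · rcases hσ B with h | h <;> rw [h] at ea' ⊢ <;> push_cast at ea' ⊢ <;> linarith

end Pool.Agent.Results.MP_03ede5_co.Bounded
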